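import Pool.Agent.W770.KP.Stm

set_option autoImplicit false

open scoped Classical

/-! Project KP (helper770): a good direction for a low degree polynomial. -/

namespace Pool.Agent.W131.KP
open Pool.Agent.W770.KP

/-- `a + b t` -/
noncomputable def lin {F : Type} [Field F] (a b : F) : Polynomial F :=
  Polynomial.C a + Polynomial.X * Polynomial.C b

theorem lin_deg {F : Type} [Field F] (a b : F) : (lin a b).natDegree ≤ 1 := by
  unfold lin
  apply Polynomial.natDegree_add_le_of_degree_le
  · rw [Polynomial.natDegree_C]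
    exact Nat.zero_le _
  · refine (Polynomial.natDegree_mul_le).trans ?_
    rw [Polynomial.natDegree_C, add_zero]
    exact Polynomial.natDegree_X_le

theorem lin_coeff {F : Type} [Field F] (a b : F) : (lin a b).coeff 1 = b := by
  unfold lin
  rw [Polynomial.coeff_add, Polynomial.coeff_C_succ, zero_add]
  have h := Polynomial.coeff_X_mul (Polynomial.C b) 0
  rw [zero_add] at h
  rw [h, Polynomial.coeff_C_zero]

theorem lin_eval {F : Type} [Field F] (a b t : F) : (lin a b).eval t = a + t * b := by
  unfold lin
  rw [Polynomial.eval_add, Polynomial.eval_mul, Polynomial.eval_C, Polynomial.eval_C,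
    Polynomial.eval_X]

theorem prod_lin {F σ : Type} [Field F] (y u : σ → F) (s : σ → ℕ) (T : Finset σ) :
    (∏ i ∈ T, lin (y i) (u i) ^ s i).natDegree ≤ ∑ i ∈ T, s i ∧
    (∏ i ∈ T, lin (y i) (u i) ^ s i).coeff (∑ i ∈ T, s i) = ∏ i ∈ T, u i ^ s i := by
  induction T using Finset.induction_on with
  | empty =>
    rw [Finset.prod_empty, Finset.sum_empty, Finset.prod_empty]
    exact ⟨by rw [Polynomial.natDegree_one], Polynomial.coeff_one_zero⟩
  | insert a T ha ih =>
    rw [Finset.prod_insert ha, Finset.sum_insert ha, Finset.prod_insert ha]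
    have h1 : (lin (y a) (u a) ^ s a).natDegree ≤ s a := by
      have := Polynomial.natDegree_pow_le_of_le (s a) (lin_deg (y a) (u a))
      rw [mul_one] at this
      exact this
    have h2 : (lin (y a) (u a) ^ s a).coeff (s a) = u a ^ s a := by
      have := Polynomial.coeff_pow_of_natDegree_le (m := s a) (lin_deg (y a) (u a))
      rw [mul_one, lin_coeff] at this
      exact this
    constructor
    · exact (Polynomial.natDegree_mul_le).trans (add_le_add h1 ih.1)
    · rw [Polynomial.coeff_mul_add_eq_of_natDegree_le h1 ih.1, h2, ih.2]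

/-- restriction to a line -/
noncomputable def rs {F σ : Type} [Field F] (y u : σ → F) (Q : MvPolynomial σ F) : Polynomial F :=
  MvPolynomial.eval₂ Polynomial.C (fun i => lin (y i) (u i)) Q

theorem rs_eval {F σ : Type} [Field F] (y u : σ → F) (Q : MvPolynomial σ F) (t : F) :
    (rs y u Q).eval t = MvPolynomial.eval (y + t • u) Q := by
  unfold rs
  have h := MvPolynomial.eval₂_comp_left (Polynomial.evalRingHom t) Polynomial.C
    (fun i => lin (y i) (u i)) Q
  rw [Polynomial.coe_evalRingHom] at h
  rw [h]
  have h1 : (Polynomial.evalRingHom t).comp Polynomial.C = RingHom.id F := by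
    apply RingHom.ext
    intro a
    show (Polynomial.C a).eval t = a
    rw [Polynomial.eval_C]
  rw [h1]
  have h2 : (Polynomial.eval t ∘ fun i => lin (y i) (u i)) = y + t • u := by
    funext i
    show (lin (y i) (u i)).eval t = y i + t * u i
    rw [lin_eval]
  rw [h2]
  rfl

theorem rs_sum {F σ : Type} [Field F] (y u : σ → F) (Q : MvPolynomial σ F) :
    rs y u Q = ∑ s ∈ Q.support, Polynomial.C (MvPolynomial.coeff s Q) *
      ∏ i ∈ s.support, lin (y i) (u i) ^ s i := by
  unfold rs
  rw [MvPolynomial.eval₂_eq]

theorem deg_le {F σ : Type} [Field F] (Q : MvPolynomial σ F) (s : σ →₀ ℕ) (hs : s ∈ Q.support) :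
    ∑ i ∈ s.support, s i ≤ Q.totalDegree := MvPolynomial.le_totalDegree hs

theorem rs_deg {F σ : Type} [Field F] (y u : σ → F) (Q : MvPolynomial σ F) :
    (rs y u Q).natDegree ≤ Q.totalDegree := by
  rw [rs_sum]
  apply Polynomial.natDegree_sum_le_of_forall_le
  intro s hs
  refine (Polynomial.natDegree_C_mul_le _ _).trans ?_
  exact (prod_lin y u s s.support).1.trans (deg_le Q s hs)

theorem rs_coeff {F σ : Type} [Field F] (y u : σ → F) (Q : MvPolynomial σ F) :
    (rs y u Q).coeff Q.totalDegree =
      MvPolynomial.eval u (MvPolynomial.homogeneousComponent Q.totalDegree Q) := by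
  rw [rs_sum, MvPolynomial.homogeneousComponent_apply, map_sum, Polynomial.finsetSum_coeff,
    Finset.sum_filter]
  refine Finset.sum_congr rfl fun s hs => ?_
  rw [Polynomial.coeff_C_mul]
  have h1 := prod_lin y u s s.support
  have h2 : s.degree = ∑ i ∈ s.support, s i := rfl
  split_ifs with h3
  · rw [← h3, h2, h1.2, MvPolynomial.eval_monomial]
    rfl
  · have h4 : ∑ i ∈ s.support, s i < Q.totalDegree := lt_of_le_of_ne (deg_le Q s hs) h3
    rw [Polynomial.coeff_eq_zero_of_natDegree_lt (h1.1.trans_lt h4), mul_zero]

theorem top_ne {F σ : Type} [Field F] (Q : MvPolynomial σ F) (hQ : Q ≠ 0) :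
    MvPolynomial.homogeneousComponent Q.totalDegree Q ≠ 0 := by
  have hne : Q.support.Nonempty := by
    rw [Finset.nonempty_iff_ne_empty]
    intro h
    exact hQ (MvPolynomial.support_eq_empty.1 h)
  obtain ⟨s, hs, h1⟩ := Finset.exists_mem_eq_sup Q.support hne (fun s => s.sum fun _ e => e)
  intro h
  have h2 := MvPolynomial.coeff_homogeneousComponent Q.totalDegree Q s
  have h3 : s.degree = Q.totalDegree := h1.symm
  rw [h, if_pos h3, MvPolynomial.coeff_zero] at h2
  exact (MvPolynomial.mem_support_iff.1 hs) h2.symm

theorem dir : S_DIR := by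
  intro F _ _ m Q hQ d hd hdq
  have hcount : ∀ u : Fin (m + 1) → F,
      MvPolynomial.eval u (MvPolynomial.homogeneousComponent Q.totalDegree Q) ≠ 0 →
      ∀ y : Fin (m + 1) → F,
      (Finset.univ.filter (fun t : F => MvPolynomial.eval (y + t • u) Q = 0)).card ≤ d := by
    intro u hu y
    have h1 : rs y u Q ≠ 0 := by
      intro h
      rw [← rs_coeff y u Q, h, Polynomial.coeff_zero] at hu
      exact hu rfl
    have h2 : Finset.univ.filter (fun t : F => MvPolynomial.eval (y + t • u) Q = 0) ⊆
        (rs y u Q).roots.toFinset := by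
      intro t ht
      rw [Multiset.mem_toFinset, Polynomial.mem_roots h1, Polynomial.IsRoot.def, rs_eval]
      exact (Finset.mem_filter.1 ht).2
    have h3 := Finset.card_le_card h2
    have h4 := Multiset.toFinset_card_le (rs y u Q).roots
    have h5 := Polynomial.card_roots' (rs y u Q)
    have h6 := rs_deg y u Q
    omega
  have hhom := MvPolynomial.homogeneousComponent_isHomogeneous Q.totalDegree Q
  by_cases hD : Q.totalDegree = 0
  · refine ⟨fun _ => 1, ?_, ?_⟩
    · intro h
      exact one_ne_zero (congrFun h 0)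
    · apply hcount
      rw [hD, MvPolynomial.homogeneousComponent_zero, MvPolynomial.eval_C]
      have h1 := top_ne Q hQ
      rw [hD, MvPolynomial.homogeneousComponent_zero] at h1
      intro h2
      rw [h2, MvPolynomial.C_0] at h1
      exact h1 rfl
  · have h1 : ∃ u : Fin (m + 1) → F,
        MvPolynomial.eval u (MvPolynomial.homogeneousComponent Q.totalDegree Q) ≠ 0 := by
      by_contra hcon
      push Not at hcon
      apply top_ne Q hQ
      apply hhom.eq_zero_of_forall_eval_eq_zero_of_le_card hcon
      rw [Cardinal.mk_fintype]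
      exact_mod_cast (hd.trans hdq.le)
    obtain ⟨u, hu⟩ := h1
    refine ⟨u, ?_, hcount u hu⟩
    rintro rfl
    apply hu
    rw [MvPolynomial.eval_zero, MvPolynomial.constantCoeff_eq]
    rw [MvPolynomial.coeff_homogeneousComponent]
    rw [if_neg]
    intro h
    apply hD
    rw [← h]
    rfl

end Pool.Agent.W131.KP
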